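import Pool.Agent.TH108.SRfin

/-!
Existence of strongly rigid chains (ZFC): every cardinal `κ` with `l < κ ≤ 2 ^ l` that has the
cofinality of `2 ^ l`, for every infinite `l` such that some chain of cardinality `2 ^ l` has a
subset of cardinality at most `l` meeting every interval.
-/

set_option autoImplicit false

namespace Pool.Agent.Results.MP_4eca4b_lc.PowersOfTwo

universe u

open Cardinal Set

/-- Every injective order-preserving map `f` from a subchain `C₁` of the chain `C` into `C` moves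
fewer than `#C` points. -/
def StronglyRigid (C : Type u) [LinearOrder C] : Prop :=
  ∀ (C₁ : Set C) (f : C₁ → C), StrictMono f → #{x : C₁ // f x ≠ x} < #C

/-- The class of the infinite cardinals that are the cardinality of a strongly rigid chain. -/
def K : Set Cardinal.{u} :=
  {κ | ℵ₀ ≤ κ ∧ ∃ (C : Type u) (_ : LinearOrder C), #C = κ ∧ StronglyRigid C}

/-- If some chain of cardinality `2 ^ l` has a subset of cardinality at most `l` that meets
every interval `[x, y]` with `x < y`, then every `κ` with `l < κ ≤ 2 ^ l` and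
`cf κ = cf 2 ^ l` is in `K`; in particular `2 ^ l` and its cofinality are in `K`. -/
theorem result (l : Cardinal.{u}) (hl : ℵ₀ ≤ l)
    (h : ∃ (L : Type u) (_ : LinearOrder L) (D : Set L),
      (∀ x y : L, x < y → ∃ d ∈ D, x ≤ d ∧ d ≤ y) ∧ #D ≤ l ∧ #L = 2 ^ l) :
    (∀ κ : Cardinal.{u}, l < κ → κ ≤ 2 ^ l →
      κ.ord.cof = ((2 : Cardinal.{u}) ^ l).ord.cof → κ ∈ K) ∧
    (2 : Cardinal.{u}) ^ l ∈ K ∧ ((2 : Cardinal.{u}) ^ l).ord.cof ∈ K := by
  have e : K.{u} = Pool.Agent.TH108.SR.K.{u} := Pool.Agent.TH108.SRfin.K_eq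
  rw [e]
  obtain ⟨L, _, D, hD, hDl, hL⟩ := h
  have key : ∀ κ : Cardinal.{u}, l < κ → κ ≤ 2 ^ l →
      κ.ord.cof = ((2 : Cardinal.{u}) ^ l).ord.cof → κ ∈ Pool.Agent.TH108.SR.K.{u} :=
    fun κ h1 h2 h3 => Pool.Agent.TH108.SR.exists_rigid hD hl hDl hL h1 h2 h3
  refine ⟨key, key _ (cantor l) le_rfl rfl, key _ (lt_cof_ord_power hl one_lt_two)
    (Ordinal.cof_ord_le _) ?_⟩
  exact Ordinal.cof_ord_cof _

end Pool.Agent.Results.MP_4eca4b_lc.PowersOfTwo
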