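import Pool.Agent.TH108.SRfin

/-!
A strongly rigid chain is narrow; hence a strong limit cardinal `κ` that is the cardinality of a
strongly rigid chain carries a `κ`-Suslin line (ZFC).
-/

set_option autoImplicit false

namespace Pool.Agent.Results.MP_4eca4b_lc.SuslinLine

universe u

open Cardinal Set

/-- Every injective order-preserving map `f` from a subchain `C₁` of the chain `C` into `C` moves
fewer than `#C` points. -/
def StronglyRigid (C : Type u) [LinearOrder C] : Prop :=
  ∀ (C₁ : Set C) (f : C₁ → C), StrictMono f → #{x : C₁ // f x ≠ x} < #C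

/-- The class of the infinite cardinals that are the cardinality of a strongly rigid chain. -/
def K : Set Cardinal.{u} :=
  {κ | ℵ₀ ≤ κ ∧ ∃ (C : Type u) (_ : LinearOrder C), #C = κ ∧ StronglyRigid C}

/-- Every set of pairwise disjoint closed intervals `[a, b]`, `a < b`, of the chain `C` has fewer
than `κ` members. -/
def Narrow (κ : Cardinal.{u}) (C : Type u) [LinearOrder C] : Prop :=
  ∀ I : Set (C × C), (∀ p ∈ I, p.1 < p.2) →
    (∀ p ∈ I, ∀ q ∈ I, p ≠ q → p.2 < q.1 ∨ q.2 < p.1) → #I < κ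

/-- Every subset of the chain `C` that meets all closed intervals `[a, b]`, `a < b`, has
at least `κ` elements. -/
def Thick (κ : Cardinal.{u}) (C : Type u) [LinearOrder C] : Prop :=
  ∀ D : Set C, (∀ a b : C, a < b → ∃ d ∈ D, a ≤ d ∧ d ≤ b) → κ ≤ #D

theorem le_two_power {C : Type u} [LinearOrder C] (D : Set C)
    (h : ∀ a b : C, a < b → ∃ d ∈ D, a ≤ d ∧ d ≤ b) :
    #C ≤ (2 : Cardinal.{u}) ^ #D * 2 ^ #D := by
  have h1 : #(Set D × Set D) = (2 : Cardinal.{u}) ^ #D * 2 ^ #D := by
    rw [mk_prod, lift_id, mk_set]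
  rw [← h1]
  refine mk_le_of_injective (f := fun x : C =>
    (({d : D | (d : C) < x}, {d : D | (d : C) ≤ x}) : Set D × Set D)) ?_
  have key : ∀ x y : C, x < y →
      (({d : D | (d : C) < x}, {d : D | (d : C) ≤ x}) : Set D × Set D) ≠
        ({d : D | (d : C) < y}, {d : D | (d : C) ≤ y}) := by
    intro x y hxy e
    obtain ⟨d, hd, h2, h3⟩ := h x y hxy
    rw [Prod.mk.injEq] at e
    rcases eq_or_lt_of_le h2 with h4 | h4
    · have h5 : (⟨d, hd⟩ : D) ∈ {d : D | (d : C) < y} := by
        show d < y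
        rw [← h4]; exact hxy
      rw [← e.1] at h5
      have h6 : d < x := h5
      rw [h4] at h6
      exact lt_irrefl _ h6
    · have h5 : (⟨d, hd⟩ : D) ∈ {d : D | (d : C) ≤ y} := h3
      rw [← e.2] at h5
      exact absurd h4 (not_lt.2 h5)
  intro x y hxy
  rcases lt_trichotomy x y with h2 | h2 | h2
  · exact absurd hxy (key x y h2)
  · exact h2
  · exact absurd hxy.symm (key y x h2)

theorem result :
    -- every strongly rigid chain is narrow, and so are all its subchains
    (∀ (C : Type u) [LinearOrder C], StronglyRigid C → ∀ X : Set C, Narrow #C X) ∧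
    -- a strong limit cardinal in `K` is regular and has a Suslin line
    (∀ κ : Cardinal.{u}, κ ∈ K → (∀ ν < κ, (2 : Cardinal.{u}) ^ ν < κ) →
      κ.IsRegular ∧ ∃ (C : Type u) (_ : LinearOrder C), #C = κ ∧ Narrow κ C ∧ Thick κ C) := by
  have e : K.{u} = Pool.Agent.TH108.SR.K.{u} := Pool.Agent.TH108.SRfin.K_eq
  have hnarrow : ∀ (C : Type u) [LinearOrder C], StronglyRigid C → Narrow #C C :=
    fun C _ h I h1 h2 => Pool.Agent.TH108.SRfin.intervals_lt h I h1 h2
  refine ⟨?_, ?_⟩
  · intro C _ h X I h1 h2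
    have hinj : Function.Injective (fun p : X × X => ((p.1 : C), (p.2 : C))) := by
      rintro ⟨a, b⟩ ⟨c, d⟩ hh
      rw [Prod.mk.injEq] at hh
      exact Prod.ext (Subtype.ext hh.1) (Subtype.ext hh.2)
    have h3 := hnarrow C h ((fun p : X × X => ((p.1 : C), (p.2 : C))) '' I) ?_ ?_
    · rwa [mk_image_eq hinj] at h3
    · rintro _ ⟨p, hp, rfl⟩
      exact h1 p hp
    · rintro _ ⟨p, hp, rfl⟩ _ ⟨q, hq, rfl⟩ hne
      exact h2 p hp q hq (fun hpq => hne (by rw [hpq]))
  · intro κ hκ hlim
    have hin := (Pool.Agent.TH108.SR.strongLimit_mem_K (e ▸ hκ) hlim).1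
    refine ⟨hin.isRegular, ?_⟩
    obtain ⟨h0, C, iC, hC, hr⟩ := hκ
    refine ⟨C, iC, hC, hC ▸ hnarrow C hr, fun D hD => ?_⟩
    by_contra hlt
    rw [not_le] at hlt
    have h1 := le_two_power D hD
    rw [hC] at h1
    have h2 := hlim _ hlt
    exact absurd (mul_lt_of_lt h0 h2 h2) (not_lt.2 h1)

end Pool.Agent.Results.MP_4eca4b_lc.SuslinLine
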